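import Mathlib

/-!
# Four points in the plane span a triangle with a non-acute angle
-/

set_option autoImplicit false

namespace Pool.Agent.R9.AC

/-- twice the signed area of the triangle -/
def cr (p q r : ℝ × ℝ) : ℝ := (q.1 - p.1) * (r.2 - p.2) - (q.2 - p.2) * (r.1 - p.1)

/-- inner product of the two sides at `p` -/
def ip (p q r : ℝ × ℝ) : ℝ := (q.1 - p.1) * (r.1 - p.1) + (q.2 - p.2) * (r.2 - p.2)

theorem ip_comm (p q r : ℝ × ℝ) : ip p q r = ip p r q := by unfold ip; ring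

theorem cr_ne {a b c : ℝ × ℝ} (h1 : 0 < ip a b c) (h2 : 0 < ip b a c) (h3 : 0 < ip c a b) :
    cr a b c ≠ 0 := by
  intro h
  have e1 : ip a b b = ip a b c + ip b a c := by unfold ip; ring
  have e2 : ip a c c = ip a b c + ip c a b := by unfold ip; ring
  have e3 : cr a b c ^ 2 + ip a b c ^ 2 = ip a b b * ip a c c := by unfold cr ip; ring
  rw [h, e1, e2] at e3
  nlinarith [mul_pos h1 h2, mul_pos h1 h3, mul_pos h2 h3]

theorem three_one {u v w : ℝ} {A B C X Y Z : ℝ} (hA : 0 ≤ A) (hB : 0 ≤ B) (hC : 0 ≤ C)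
    (hX : 0 < X) (hY : 0 < Y) (hZ : 0 < Z)
    (h : u ^ 2 * A + v ^ 2 * B + w ^ 2 * C + 2 * (u * v) * X + 2 * (u * w) * Y +
      2 * (v * w) * Z = 0) (hs : (0 < u ∧ 0 < v ∧ 0 < w) ∨ (u < 0 ∧ v < 0 ∧ w < 0)) : False := by
  have h1 : 0 < u * v := by
    rcases hs with ⟨h1, h2, h3⟩ | ⟨h1, h2, h3⟩
    · exact mul_pos h1 h2
    · exact mul_pos_of_neg_of_neg h1 h2
  have h2 : 0 < u * w := by
    rcases hs with ⟨h1, h2, h3⟩ | ⟨h1, h2, h3⟩
    · exact mul_pos h1 h3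
    · exact mul_pos_of_neg_of_neg h1 h3
  have h3 : 0 < v * w := by
    rcases hs with ⟨h1, h2, h3⟩ | ⟨h1, h2, h3⟩
    · exact mul_pos h2 h3
    · exact mul_pos_of_neg_of_neg h2 h3
  have : 0 < u ^ 2 * A + v ^ 2 * B + w ^ 2 * C + 2 * (u * v) * X + 2 * (u * w) * Y +
      2 * (v * w) * Z := by positivity
  linarith

/-- four points in the plane: the triangles spanned by three of them are not all acute -/
theorem four {a b c d : ℝ × ℝ} (h1 : 0 < ip a b c) (h2 : 0 < ip a b d) (h3 : 0 < ip a c d)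
    (h4 : 0 < ip b a c) (h5 : 0 < ip b a d) (h6 : 0 < ip b c d)
    (h7 : 0 < ip c a b) (h8 : 0 < ip c a d) (h9 : 0 < ip c b d)
    (h10 : 0 < ip d a b) (h11 : 0 < ip d a c) (h12 : 0 < ip d b c) : False := by
  have n1 : cr b c d ≠ 0 := cr_ne h6 h9 h12
  have n2 : cr a c d ≠ 0 := cr_ne h3 h8 h11
  have n3 : cr a b d ≠ 0 := cr_ne h2 h5 h10
  have n4 : cr a b c ≠ 0 := cr_ne h1 h4 h7
  obtain ⟨w1, hw1⟩ : ∃ w, w = cr b c d := ⟨_, rfl⟩
  obtain ⟨w2, hw2⟩ : ∃ w, w = -cr a c d := ⟨_, rfl⟩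
  obtain ⟨w3, hw3⟩ : ∃ w, w = cr a b d := ⟨_, rfl⟩
  obtain ⟨w4, hw4⟩ : ∃ w, w = -cr a b c := ⟨_, rfl⟩
  have hs : w1 + w2 + w3 + w4 = 0 := by rw [hw1, hw2, hw3, hw4]; unfold cr; ring
  have ha : w2 ^ 2 * ip a b b + w3 ^ 2 * ip a c c + w4 ^ 2 * ip a d d +
      2 * (w2 * w3) * ip a b c + 2 * (w2 * w4) * ip a b d + 2 * (w3 * w4) * ip a c d = 0 := by
    rw [hw2, hw3, hw4]; unfold cr ip; ring
  have hb : w1 ^ 2 * ip b a a + w3 ^ 2 * ip b c c + w4 ^ 2 * ip b d d +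
      2 * (w1 * w3) * ip b a c + 2 * (w1 * w4) * ip b a d + 2 * (w3 * w4) * ip b c d = 0 := by
    rw [hw1, hw3, hw4]; unfold cr ip; ring
  have hc : w1 ^ 2 * ip c a a + w2 ^ 2 * ip c b b + w4 ^ 2 * ip c d d +
      2 * (w1 * w2) * ip c a b + 2 * (w1 * w4) * ip c a d + 2 * (w2 * w4) * ip c b d = 0 := by
    rw [hw1, hw2, hw4]; unfold cr ip; ring
  have hd : w1 ^ 2 * ip d a a + w2 ^ 2 * ip d b b + w3 ^ 2 * ip d c c +
      2 * (w1 * w2) * ip d a b + 2 * (w1 * w3) * ip d a c + 2 * (w2 * w3) * ip d b c = 0 := by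
    rw [hw1, hw2, hw3]; unfold cr ip; ring
  have sq : ∀ p q : ℝ × ℝ, 0 ≤ ip p q q := fun p q => by
    unfold ip; nlinarith [sq_nonneg (q.1 - p.1), sq_nonneg (q.2 - p.2)]
  -- the three splittings into two pairs
  have f1 : w1 * ip a b d + w3 * ip c b d - w2 * ip b a c - w4 * ip d a c = 0 := by
    rw [hw1, hw2, hw3, hw4]; unfold cr ip; ring
  have f2 : w1 * ip a c d + w2 * ip b c d - w3 * ip c a b - w4 * ip d a b = 0 := by
    rw [hw1, hw2, hw3, hw4]; unfold cr ip; ring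
  have f3 : w1 * ip a b c + w4 * ip d b c - w2 * ip b a d - w3 * ip c a d = 0 := by
    rw [hw1, hw2, hw3, hw4]; unfold cr ip; ring
  have m1 : w1 ≠ 0 := by rw [hw1]; exact n1
  have m2 : w2 ≠ 0 := by rw [hw2]; exact neg_ne_zero.2 n2
  have m3 : w3 ≠ 0 := by rw [hw3]; exact n3
  have m4 : w4 ≠ 0 := by rw [hw4]; exact neg_ne_zero.2 n4
  rcases lt_or_gt_of_ne m1 with s1 | s1 <;> rcases lt_or_gt_of_ne m2 with s2 | s2 <;>
    rcases lt_or_gt_of_ne m3 with s3 | s3 <;> rcases lt_or_gt_of_ne m4 with s4 | s4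
  · linarith
  · exact three_one (sq d a) (sq d b) (sq d c) h10 h11 h12 hd (Or.inr ⟨s1, s2, s3⟩)
  · exact three_one (sq c a) (sq c b) (sq c d) h7 h8 h9 hc (Or.inr ⟨s1, s2, s4⟩)
  · -- w1, w2 < 0 < w3, w4
    linarith [mul_neg_of_neg_of_pos s1 h3, mul_neg_of_neg_of_pos s2 h6, mul_pos s3 h7,
      mul_pos s4 h10]
  · exact three_one (sq b a) (sq b c) (sq b d) h4 h5 h6 hb (Or.inr ⟨s1, s3, s4⟩)
  · -- w1, w3 < 0 < w2, w4
    linarith [mul_neg_of_neg_of_pos s1 h2, mul_neg_of_neg_of_pos s3 h9, mul_pos s2 h4,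
      mul_pos s4 h11]
  · -- w1, w4 < 0 < w2, w3
    linarith [mul_neg_of_neg_of_pos s1 h1, mul_neg_of_neg_of_pos s4 h12, mul_pos s2 h5,
      mul_pos s3 h8]
  · exact three_one (sq a b) (sq a c) (sq a d) h1 h2 h3 ha (Or.inl ⟨s2, s3, s4⟩)
  · exact three_one (sq a b) (sq a c) (sq a d) h1 h2 h3 ha (Or.inr ⟨s2, s3, s4⟩)
  · -- w2, w3 < 0 < w1, w4
    linarith [mul_neg_of_neg_of_pos s2 h5, mul_neg_of_neg_of_pos s3 h8, mul_pos s1 h1,
      mul_pos s4 h12]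
  · -- w2, w4 < 0 < w1, w3
    linarith [mul_neg_of_neg_of_pos s2 h4, mul_neg_of_neg_of_pos s4 h11, mul_pos s1 h2,
      mul_pos s3 h9]
  · exact three_one (sq b a) (sq b c) (sq b d) h4 h5 h6 hb (Or.inl ⟨s1, s3, s4⟩)
  · -- w3, w4 < 0 < w1, w2
    linarith [mul_neg_of_neg_of_pos s3 h7, mul_neg_of_neg_of_pos s4 h10, mul_pos s1 h3,
      mul_pos s2 h6]
  · exact three_one (sq c a) (sq c b) (sq c d) h7 h8 h9 hc (Or.inl ⟨s1, s2, s4⟩)
  · exact three_one (sq d a) (sq d b) (sq d c) h10 h11 h12 hd (Or.inl ⟨s1, s2, s3⟩)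
  · linarith

end Pool.Agent.R9.AC
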