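import Pool.Agent.R9.AC.Main

/-!
# The asymptotic form
-/

set_option autoImplicit false

open Finset Filter Real EuclideanGeometry

namespace Pool.Agent.R9.AC

/-- the smallest proportion of non-acute angles of `n` points -/
noncomputable def minProp (n : ℕ) : ℝ :=
  sInf {x : ℝ | ∃ X : Finset Plane, X.card = n ∧
    x = ((nonAcute X).card : ℝ) / ((n : ℝ) * (n - 1) * (n - 2) / 2)}

theorem choose3 (n : ℕ) : ((n.choose 3 : ℕ) : ℝ) = (n : ℝ) * (n - 1) * (n - 2) / 6 := by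
  rcases Nat.lt_or_ge n 2 with h | h
  · interval_cases n <;> norm_num [Nat.choose]
  · have h1 : n.choose 3 * 6 = n * (n - 1) * (n - 2) := by
      have := Nat.descFactorial_eq_factorial_mul_choose n 3
      have h2 : n.descFactorial 3 = (n - 2) * ((n - 1) * n) := by
        simp [Nat.descFactorial]
      rw [h2] at this
      have h3 : Nat.factorial 3 = 6 := rfl
      rw [h3] at this
      linarith
    have h4 : ((n.choose 3 * 6 : ℕ) : ℝ) = ((n * (n - 1) * (n - 2) : ℕ) : ℝ) := by rw [h1]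
    push_cast [Nat.cast_sub (show 1 ≤ n by omega), Nat.cast_sub (show 2 ≤ n by omega)] at h4
    linarith

theorem exists_card (n : ℕ) : ∃ X : Finset Plane, X.card = n := by
  have : Infinite Plane := by
    have : Function.Injective fun (t : ℕ) => (EuclideanSpace.single (0 : Fin 2) (t : ℝ) : Plane) := by
      intro a b h
      have := congrArg (fun v : Plane => v 0) h
      simpa using this
    exact Infinite.of_injective _ this
  exact Infinite.exists_subset_card_eq Plane n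

theorem count_real {A B : ℕ} (hB : Bound A B) (hB0 : 0 < B) (X : Finset Plane) :
    ((X.card.choose 3 : ℕ) : ℝ) - (A : ℝ) / B * (X.card : ℝ) ^ 3 ≤ ((nonAcute X).card : ℝ) := by
  have h := count hB X
  have h1 : (B : ℝ) * ((X.card.choose 3 : ℕ) : ℝ) ≤
      (A : ℝ) * (X.card : ℝ) ^ 3 + (B : ℝ) * ((nonAcute X).card : ℝ) := by exact_mod_cast h
  have hB1 : (0 : ℝ) < B := by exact_mod_cast hB0
  have h2 : (B : ℝ) * (((X.card.choose 3 : ℕ) : ℝ) - (A : ℝ) / B * (X.card : ℝ) ^ 3) ≤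
      B * ((nonAcute X).card : ℝ) := by
    have : (B : ℝ) * ((A : ℝ) / B * (X.card : ℝ) ^ 3) = A * (X.card : ℝ) ^ 3 := by
      field_simp
    rw [mul_sub, this]
    linarith
  exact le_of_mul_le_mul_left h2 hB1

theorem ge_minProp {A B : ℕ} (hB : Bound A B) (hB0 : 0 < B) (c : ℝ) (hc : (A : ℝ) / B = c / 6)
    (hc0 : 0 ≤ c) (hc1 : c ≤ 1) (n : ℕ) (hn : 5 ≤ n) :
    (1 - c) / 3 - 2 / (n : ℝ) ≤ minProp n := by
  obtain ⟨X0, hX0⟩ := exists_card n
  refine le_csInf ⟨((nonAcute X0).card : ℝ) / ((n : ℝ) * (n - 1) * (n - 2) / 2), X0, hX0, rfl⟩ ?_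
  rintro x ⟨X, hX, rfl⟩
  have h := count_real hB hB0 X
  rw [hX, choose3, hc] at h
  have hn' : (5 : ℝ) ≤ n := by exact_mod_cast hn
  have hD : 0 < (n : ℝ) * (n - 1) * (n - 2) / 2 := by
    have h1 : (0 : ℝ) < n := by linarith
    have h2 : (0 : ℝ) < (n : ℝ) - 1 := by linarith
    have h3 : (0 : ℝ) < (n : ℝ) - 2 := by linarith
    positivity
  rw [le_div_iff₀ hD]
  refine le_trans ?_ h
  have h1 : (0 : ℝ) < n := by linarith
  have key : ((1 - c) / 3 - 2 / (n : ℝ)) * ((n : ℝ) * (n - 1) * (n - 2) / 2) =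
      ((1 - c) / 3 * n - 2) * ((n - 1) * (n - 2)) / 2 := by
    field_simp
  rw [key]
  nlinarith [mul_nonneg hc0 (mul_nonneg h1.le h1.le), mul_nonneg (sub_nonneg.2 hc1) (mul_nonneg h1.le h1.le),
    mul_nonneg (sub_nonneg.2 hc1) h1.le, mul_nonneg (sub_nonneg.2 hn') h1.le]

theorem limit_ge {A B : ℕ} (hB : Bound A B) (hB0 : 0 < B) (c : ℝ) (hc : (A : ℝ) / B = c / 6)
    (hc0 : 0 ≤ c) (hc1 : c ≤ 1) (L : ℝ) (hL : Tendsto minProp atTop (nhds L)) :
    (1 - c) / 3 ≤ L := by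
  have h1 : Tendsto (fun n : ℕ => (1 - c) / 3 - 2 / (n : ℝ)) atTop (nhds ((1 - c) / 3 - 0)) :=
    tendsto_const_nhds.sub (tendsto_const_div_atTop_nhds_zero_nat 2)
  rw [sub_zero] at h1
  refine le_of_tendsto_of_tendsto h1 hL ?_
  filter_upwards [eventually_ge_atTop 5] with n hn
  exact ge_minProp hB hB0 c hc hc0 hc1 n hn

end Pool.Agent.R9.AC
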