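import Pool.Agent.R9.AC.Geo

/-!
# Non-acute angles of planar point sets from an edge bound for `K_4^3`-free 3-graphs
-/

set_option autoImplicit false

open Finset Filter Real EuclideanGeometry

namespace Pool.Agent.R9.AC

/-- the Euclidean plane -/
abbrev Plane : Type := EuclideanSpace ℝ (Fin 2)

open scoped Classical in
/-- The non-acute angles of `X`: pairs of a vertex `b` in `X` and a set `{a, c}` of two other points
of `X` such that the angle `a b c` is at least `π / 2`. -/
noncomputable def nonAcute (X : Finset Plane) : Finset (Plane × Finset Plane) :=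
  (X ×ˢ X.powersetCard 2).filter fun t => t.1 ∉ t.2 ∧ ∃ a c : Plane, t.2 = {a, c} ∧
    π / 2 ≤ ∠ a t.1 c

/-- coordinates -/
def co (x : Plane) : ℝ × ℝ := (x 0, x 1)

theorem ip_eq (a b c : Plane) : ip (co b) (co a) (co c) = inner ℝ (a - b) (c - b) := by
  unfold ip co
  rw [PiLp.inner_apply, Fin.sum_univ_two]
  simp only [PiLp.sub_apply, RCLike.inner_apply, conj_trivial]
  ring

theorem angle_of {a b c : Plane} (h : ¬ 0 < ip (co b) (co a) (co c)) : π / 2 ≤ ∠ a b c := by
  rw [ip_eq] at h
  by_contra hc
  push Not at hc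
  apply h
  unfold EuclideanGeometry.angle InnerProductGeometry.angle at hc
  rw [Real.arccos_lt_pi_div_two] at hc
  simp only [vsub_eq_sub] at hc
  by_contra h2
  push Not at h2
  have h3 : inner ℝ (a - b) (c - b) / (‖a - b‖ * ‖c - b‖) ≤ 0 :=
    div_nonpos_of_nonpos_of_nonneg h2 (by positivity)
  linarith

/-- `H` has no four vertices spanning all four triples. -/
def K43Free {n : ℕ} (H : Finset (Finset (Fin n))) : Prop :=
  ∀ S : Finset (Fin n), S.card = 4 → ∃ T ⊆ S, T.card = 3 ∧ T ∉ H

/-- the bound for the number of edges -/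
def Bound (A B : ℕ) : Prop := ∀ (n : ℕ) (H : Finset (Finset (Fin n))), (∀ e ∈ H, e.card = 3) →
  K43Free H → B * H.card ≤ A * n ^ 3

open scoped Classical in
theorem count {A B : ℕ} (hB : Bound A B) (X : Finset Plane) :
    B * (X.card.choose 3) ≤ A * X.card ^ 3 + B * (nonAcute X).card := by
  obtain ⟨n, hn⟩ : ∃ n, n = X.card := ⟨_, rfl⟩
  rw [← hn]
  have e : Fin n ≃ X := (Finset.equivFinOfCardEq hn.symm).symm
  set p : Fin n → Plane := fun i => (e i : Plane) with hp
  have pinj : Function.Injective p := fun i j h => e.injective (Subtype.ext h)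
  have pX : ∀ i, p i ∈ X := fun i => (e i).2
  set P : Finset (Fin n) → Prop := fun t => ∀ i ∈ t, ∀ j ∈ t, ∀ k ∈ t, i ≠ j → i ≠ k → j ≠ k →
    0 < ip (co (p i)) (co (p j)) (co (p k)) with hP
  set H : Finset (Finset (Fin n)) := (powersetCard 3 univ).filter P with hH
  have h3 : ∀ t ∈ H, t.card = 3 := fun t ht => (mem_powersetCard.1 (mem_filter.1 ht).1).2
  have hK : K43Free H := by
    intro S hS
    by_contra hc
    push Not at hc
    obtain ⟨a, S', haS, hSa, hS'⟩ := Finset.card_eq_succ.1 hS
    obtain ⟨b, c, d, hbc, hbd, hcd, hS3⟩ := Finset.card_eq_three.1 hS'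
    have hab : a ≠ b := fun h => haS (by rw [hS3, h]; simp)
    have hac : a ≠ c := fun h => haS (by rw [hS3, h]; simp)
    have had : a ≠ d := fun h => haS (by rw [hS3, h]; simp)
    have key : ∀ x y z : Fin n, x ∈ S → y ∈ S → z ∈ S → x ≠ y → x ≠ z → y ≠ z →
        0 < ip (co (p x)) (co (p y)) (co (p z)) := by
      intro x y z hx hy hz hxy hxz hyz
      have hT := hc {x, y, z} (by
        intro u hu
        simp only [mem_insert, mem_singleton] at hu
        rcases hu with rfl | rfl | rfl
        · exact hx
        · exact hy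
        · exact hz) (Finset.card_eq_three.2 ⟨x, y, z, hxy, hxz, hyz, rfl⟩)
      exact (mem_filter.1 hT).2 x (by simp) y (by simp) z (by simp) hxy hxz hyz
    have ha : a ∈ S := by rw [← hSa]; simp
    have hb : b ∈ S := by rw [← hSa, hS3]; simp
    have hc' : c ∈ S := by rw [← hSa, hS3]; simp
    have hd : d ∈ S := by rw [← hSa, hS3]; simp
    exact four (key a b c ha hb hc' hab hac hbc) (key a b d ha hb hd hab had hbd)
      (key a c d ha hc' hd hac had hcd) (key b a c hb ha hc' hab.symm hbc hac)
      (key b a d hb ha hd hab.symm hbd had) (key b c d hb hc' hd hbc hbd hcd)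
      (key c a b hc' ha hb hac.symm hbc.symm hab) (key c a d hc' ha hd hac.symm hcd had)
      (key c b d hc' hb hd hbc.symm hcd hbd) (key d a b hd ha hb had.symm hbd.symm hab)
      (key d a c hd ha hc' had.symm hcd.symm hac) (key d b c hd hb hc' hbd.symm hcd.symm hbc)
  have h1 := hB n H h3 hK
  have h2 : (((powersetCard 3 (univ : Finset (Fin n))).filter fun t => ¬ P t)).card ≤
      (nonAcute X).card := by
    refine Finset.card_le_card_of_surjOn
      (fun t : Plane × Finset Plane => univ.filter fun i => p i ∈ insert t.1 t.2) ?_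
    intro t ht
    rw [mem_coe, mem_filter, mem_powersetCard] at ht
    obtain ⟨⟨-, ht3⟩, hnP⟩ := ht
    rw [hP] at hnP
    push Not at hnP
    obtain ⟨i, hi, j, hj, k, hk, hij, hik, hjk, hle⟩ := hnP
    have htt : t = {i, j, k} := by
      symm
      apply Finset.eq_of_subset_of_card_le
      · intro u hu
        simp only [mem_insert, mem_singleton] at hu
        rcases hu with rfl | rfl | rfl
        · exact hi
        · exact hj
        · exact hk
      · rw [ht3, Finset.card_eq_three.2 ⟨i, j, k, hij, hik, hjk, rfl⟩]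
    have nij : p i ≠ p j := fun h => hij (pinj h)
    have nik : p i ≠ p k := fun h => hik (pinj h)
    have njk : p j ≠ p k := fun h => hjk (pinj h)
    refine ⟨(p i, {p j, p k}), ?_, ?_⟩
    · rw [mem_coe]
      unfold nonAcute
      rw [mem_filter, mem_product, mem_powersetCard]
      refine ⟨⟨pX i, ?_, Finset.card_pair njk⟩, ?_, p j, p k, rfl, ?_⟩
      · intro u hu
        simp only [mem_insert, mem_singleton] at hu
        rcases hu with rfl | rfl
        · exact pX j
        · exact pX k
      · simp only [mem_insert, mem_singleton, not_or]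
        exact ⟨nij, nik⟩
      · exact angle_of (not_lt.2 hle)
    · ext u
      rw [htt]
      simp only [mem_filter, mem_univ, true_and, mem_insert, mem_singleton]
      constructor
      · rintro (h | h | h)
        · exact Or.inl (pinj h)
        · exact Or.inr (Or.inl (pinj h))
        · exact Or.inr (Or.inr (pinj h))
      · rintro (rfl | rfl | rfl) <;> simp
  have h4 : H.card + ((powersetCard 3 (univ : Finset (Fin n))).filter fun t => ¬ P t).card =
      n.choose 3 := by
    rw [hH, Finset.card_filter_add_card_filter_not, card_powersetCard, card_univ, Fintype.card_fin]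
  rw [← h4, mul_add]
  have h5 := Nat.mul_le_mul_left B h2
  omega

end Pool.Agent.R9.AC
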